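import Mathlib

/-!
# Cokernels of matrices over group rings of finite `p`-groups in characteristic `p`
-/

set_option autoImplicit false

namespace Pool.Agent.Q173.MU

open Module

section nilpotent

variable {k : Type*} [Field k] {V : Type*} [AddCommGroup V] [Module k V] [Module.Finite k V]

/-- A nilpotent endomorphism with `T ^ q = 0` has a cokernel of dimension at least `dim V / q`. -/
lemma finrank_le_of_pow (T : V →ₗ[k] V) (q : ℕ) (hT : T ^ q = 0) :
    finrank k V ≤ q * finrank k (V ⧸ LinearMap.range T) := by
  have h1 : ∀ j : ℕ, finrank k (LinearMap.ker (T ^ j)) ≤ j * finrank k (LinearMap.ker T) := by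
    intro j
    induction j with
    | zero =>
      rw [pow_zero, Module.End.one_eq_id, LinearMap.ker_id, finrank_bot, zero_mul]
    | succ j ih =>
      have hmap : ∀ x ∈ LinearMap.ker (T ^ (j + 1)), T x ∈ LinearMap.ker (T ^ j) := by
        intro x hx
        rw [LinearMap.mem_ker] at hx ⊢
        rw [← Module.End.mul_apply, ← pow_succ]
        exact hx
      set f := T.restrict hmap with hf
      have e1 := LinearMap.finrank_range_add_finrank_ker f
      have e2 : finrank k (LinearMap.range f) ≤ finrank k (LinearMap.ker (T ^ j)) :=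
        Submodule.finrank_le _
      have e3 : finrank k (LinearMap.ker f) ≤ finrank k (LinearMap.ker T) := by
        have hg : ∀ x : LinearMap.ker f, ((x : LinearMap.ker (T ^ (j + 1))) : V) ∈ LinearMap.ker T := by
          intro x
          have h2 := x.2
          rw [LinearMap.mem_ker] at h2 ⊢
          exact congrArg Subtype.val h2
        refine LinearMap.finrank_le_finrank_of_injective
          (f := LinearMap.codRestrict (LinearMap.ker T)
            ((Submodule.subtype _).comp (Submodule.subtype _)) hg) ?_
        intro x y hxy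
        have h3 := congrArg Subtype.val hxy
        exact Subtype.ext (Subtype.ext h3)
      calc finrank k (LinearMap.ker (T ^ (j + 1)))
          = finrank k (LinearMap.range f) + finrank k (LinearMap.ker f) := e1.symm
        _ ≤ j * finrank k (LinearMap.ker T) + finrank k (LinearMap.ker T) := by omega
        _ = (j + 1) * finrank k (LinearMap.ker T) := by ring
  have h2 := h1 q
  rw [hT, LinearMap.ker_zero, finrank_top] at h2
  have h3 := LinearMap.finrank_range_add_finrank_ker T
  have h4 := Submodule.finrank_quotient_add_finrank (LinearMap.range T)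
  have h5 : finrank k (LinearMap.ker T) = finrank k (V ⧸ LinearMap.range T) := by omega
  rw [← h5]
  exact h2

/-- the same for a smaller quotient -/
lemma finrank_le_of_ker {U : Type*} [AddCommGroup U] [Module k U] (T : V →ₗ[k] V) (q : ℕ)
    (hT : T ^ q = 0) (π : V →ₗ[k] U) (hπ : LinearMap.ker π ≤ LinearMap.range T) (hs : Function.Surjective π) :
    finrank k V ≤ q * finrank k U := by
  have h1 := finrank_le_of_pow T q hT
  have h2 := LinearMap.finrank_range_add_finrank_ker π
  rw [LinearMap.range_eq_top.2 hs, finrank_top] at h2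
  have h3 : finrank k (LinearMap.ker π) ≤ finrank k (LinearMap.range T) := Submodule.finrank_mono hπ
  have h4 := Submodule.finrank_quotient_add_finrank (LinearMap.range T)
  calc finrank k V ≤ q * finrank k (V ⧸ LinearMap.range T) := h1
    _ ≤ q * finrank k U := Nat.mul_le_mul_left _ (by omega)

end nilpotent

section quotient

variable {k : Type*} [Field k] {R : Type*} [CommRing R] [Algebra k R] [Module.Finite k R]

lemma finrank_quot_step (I : Ideal R) (w : R) (q : ℕ) (hw : w ^ q = 0) :
    finrank k (R ⧸ I) ≤ q * finrank k (R ⧸ (I ⊔ Ideal.span {w})) := by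
  set T : (R ⧸ I) →ₗ[k] (R ⧸ I) := LinearMap.mulLeft k (Ideal.Quotient.mk I w) with hTdef
  have hT : T ^ q = 0 := by
    rw [hTdef, LinearMap.pow_mulLeft, ← map_pow, hw, map_zero, LinearMap.mulLeft_zero_eq_zero]
  set π : (R ⧸ I) →ₗ[k] (R ⧸ (I ⊔ Ideal.span {w})) :=
    (Ideal.Quotient.factorₐ k (le_sup_left : I ≤ I ⊔ Ideal.span {w})).toLinearMap with hπ
  refine finrank_le_of_ker T q hT π ?_ ?_
  · intro x hx
    obtain ⟨y, rfl⟩ := Ideal.Quotient.mk_surjective x
    rw [LinearMap.mem_ker] at hx
    have h1 : Ideal.Quotient.mk (I ⊔ Ideal.span {w}) y = 0 := hx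
    rw [Ideal.Quotient.eq_zero_iff_mem] at h1
    obtain ⟨a, ha, b, hb, hab⟩ := Submodule.mem_sup.1 h1
    obtain ⟨c, rfl⟩ := Ideal.mem_span_singleton'.1 hb
    refine ⟨Ideal.Quotient.mk I c, ?_⟩
    rw [hTdef, LinearMap.mulLeft_apply, ← map_mul, ← hab, map_add, Ideal.Quotient.eq_zero_iff_mem.2 ha,
      zero_add, mul_comm]
  · intro x
    obtain ⟨y, rfl⟩ := Ideal.Quotient.mk_surjective x
    exact ⟨Ideal.Quotient.mk I y, rfl⟩

/-- The quotient by `s` elements with `w i ^ q = 0` has dimension at least `dim R / q ^ s`. -/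
lemma finrank_quot (q s : ℕ) (w : Fin s → R) (hw : ∀ i, w i ^ q = 0) :
    finrank k R ≤ q ^ s * finrank k (R ⧸ Ideal.span (Set.range w)) := by
  induction s with
  | zero =>
    have h1 : Ideal.span (Set.range w) = (⊥ : Ideal R) := by
      rw [Set.range_eq_empty w, Ideal.span_empty]
    rw [pow_zero, one_mul, h1]
    exact (LinearEquiv.finrank_eq ((AlgEquiv.quotientBot k R).toLinearEquiv)).ge
  | succ s ih =>
    have h1 := ih (fun i => w i.castSucc) (fun i => hw _)
    have h2 := finrank_quot_step (k := k) (Ideal.span (Set.range fun i : Fin s => w i.castSucc)) (w (Fin.last s)) q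
      (hw _)
    have h3 : Ideal.span (Set.range fun i : Fin s => w i.castSucc) ⊔ Ideal.span {w (Fin.last s)} =
        Ideal.span (Set.range w) := by
      rw [← Ideal.span_union]
      congr 1
      ext x
      constructor
      · rintro (⟨i, rfl⟩ | h)
        · exact ⟨_, rfl⟩
        · exact ⟨Fin.last s, h.symm⟩
      · rintro ⟨i, rfl⟩
        induction i using Fin.lastCases with
        | last => exact Or.inr rfl
        | cast i => exact Or.inl ⟨i, rfl⟩
    rw [h3] at h2
    calc finrank k R ≤ q ^ s * finrank k (R ⧸ Ideal.span (Set.range fun i : Fin s => w i.castSucc)) := h1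
      _ ≤ q ^ s * (q * finrank k (R ⧸ Ideal.span (Set.range w))) := Nat.mul_le_mul_left _ h2
      _ = q ^ (s + 1) * finrank k (R ⧸ Ideal.span (Set.range w)) := by ring

end quotient

section semicontinuity

variable {k : Type*} [Field k] {U W : Type*} [AddCommGroup U] [Module k U] [Module.Finite k U]
  [AddCommGroup W] [Module k W] [Module.Finite k W]

/-- **Semicontinuity of the rank.** -/
lemma exists_rank_le [Infinite k] (L₀ L₁ : U →ₗ[k] W) :
    ∃ c : k, c ≠ 0 ∧ finrank k (LinearMap.range L₀) ≤ finrank k (LinearMap.range (L₀ + c • L₁)) := by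
  classical
  -- a section of `L₀` over its range and a projection to the range
  obtain ⟨s, hs⟩ := L₀.rangeRestrict.exists_rightInverse_of_surjective L₀.range_rangeRestrict
  obtain ⟨π, hπ⟩ := (LinearMap.range L₀).subtype.exists_leftInverse_of_injective
    (Submodule.ker_subtype _)
  set E : Module.End k (LinearMap.range L₀) := π ∘ₗ L₁ ∘ₗ s with hE
  have hfin : Set.Finite {t : k | E.HasEigenvalue t} := Module.End.finite_hasEigenvalue E
  have hfin2 : Set.Finite ({t : k | E.HasEigenvalue (-t⁻¹)} ∪ {0}) := by
    refine Set.Finite.union ?_ (Set.finite_singleton 0)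
    refine Set.Finite.preimage (f := fun t : k => -t⁻¹) ?_ hfin
    intro a _ b _ hab
    have h1 : -a⁻¹ = -b⁻¹ := hab
    exact inv_injective (neg_injective h1)
  obtain ⟨c, hc⟩ := hfin2.exists_notMem
  have hc0 : c ≠ 0 := fun h => hc (Or.inr h)
  have hce : ¬ E.HasEigenvalue (-c⁻¹) := fun h => hc (Or.inl h)
  refine ⟨c, hc0, ?_⟩
  have hinj : Function.Injective ((L₀ + c • L₁).rangeRestrict ∘ₗ s) := by
    rw [← LinearMap.ker_eq_bot, LinearMap.ker_eq_bot']
    intro y hy
    have h1 : (L₀ + c • L₁) (s y) = 0 := congrArg Subtype.val hy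
    have h2 : L₀ (s y) = y := by
      have := congrArg Subtype.val (LinearMap.congr_fun hs y)
      exact this
    have h3 : π (L₀ (s y)) = y := by
      rw [h2]
      exact LinearMap.congr_fun hπ y
    have h4 : y + c • E y = 0 := by
      have h5 := congrArg π h1
      rw [LinearMap.add_apply, LinearMap.smul_apply, map_add, map_smul, map_zero, h3] at h5
      exact h5
    by_contra hy0
    apply hce
    apply Module.End.hasEigenvalue_of_hasEigenvector (x := y)
    refine ⟨?_, hy0⟩
    rw [Module.End.mem_eigenspace_iff]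
    have h6 : c • E y = -y := by
      rw [add_comm] at h4
      exact eq_neg_of_add_eq_zero_left h4
    calc E y = c⁻¹ • (c • E y) := by rw [smul_smul, inv_mul_cancel₀ hc0, one_smul]
      _ = (-c⁻¹) • y := by rw [h6, smul_neg, neg_smul]
  exact LinearMap.finrank_le_finrank_of_injective hinj

/-- the dimension of the cokernel is upper semicontinuous -/
lemma exists_coker_le [Infinite k] (L₀ L₁ : U →ₗ[k] W) :
    ∃ c : k, c ≠ 0 ∧ finrank k (W ⧸ LinearMap.range (L₀ + c • L₁)) ≤ finrank k (W ⧸ LinearMap.range L₀) := by
  obtain ⟨c, hc, h⟩ := exists_rank_le L₀ L₁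
  refine ⟨c, hc, ?_⟩
  have h1 := Submodule.finrank_quotient_add_finrank (LinearMap.range L₀)
  have h2 := Submodule.finrank_quotient_add_finrank (LinearMap.range (L₀ + c • L₁))
  omega

end semicontinuity

end Pool.Agent.Q173.MU
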