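import Pool.Agent.Q173.MU.Grp

/-!
# The dimension of the cokernel of a matrix over the group ring of an abelian `p`-group

Let `k` be an infinite field of characteristic `p`, `G` an abelian group of exponent dividing `p ^ e` and `A` a
matrix with `b ≥ 1` rows and `b + r` columns over `k[G]` with entries in the augmentation ideal. Then the cokernel of `A`
has dimension at least `|G| / p ^ (e (r + 1))`.
-/

set_option autoImplicit false

namespace Pool.Agent.Q173.MU

open Module Matrix

section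

variable {k : Type*} [Field k] {G : Type*} [CommGroup G] [Finite G] {p : ℕ} [Fact p.Prime] [CharP k p]

/-- **Elimination.** A matrix with an invertible block of corank one. -/
lemma card_le_of_block {n m : Type} [Fintype n] [DecidableEq n] {s : ℕ} (e : ℕ)
    (hG : ∀ g : G, g ^ p ^ e = 1)
    (P : Matrix n n (MonoidAlgebra k G)) (Q : Matrix n (Fin s) (MonoidAlgebra k G))
    (S : Matrix Unit n (MonoidAlgebra k G)) (T : Matrix Unit (Fin s) (MonoidAlgebra k G))
    (hP : IsUnit P.det) (hS : ∀ i j, aug k G (S i j) = 0) (hT : ∀ i j, aug k G (T i j) = 0) :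
    Nat.card G ≤ (p ^ e) ^ s *
      finrank k ((n ⊕ Unit → MonoidAlgebra k G) ⧸ LinearMap.range (kmap (fromBlocks P Q S T))) := by
  -- the Schur complement
  set w : Fin s → MonoidAlgebra k G := fun j => T () j - (S * P⁻¹ * Q) () j with hw
  have hw0 : ∀ j, w j ^ p ^ e = 0 := by
    intro j
    apply pow_eq_zero e hG
    have h1 : ∀ i, aug k G ((S * P⁻¹) () i) = 0 := by
      intro i
      rw [Matrix.mul_apply, map_sum]
      apply Finset.sum_eq_zero
      intro l _
      rw [map_mul, hS, zero_mul]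
    have h2 : aug k G ((S * P⁻¹ * Q) () j) = 0 := by
      rw [Matrix.mul_apply, map_sum]
      apply Finset.sum_eq_zero
      intro l _
      rw [map_mul, h1, zero_mul]
    rw [hw, map_sub, hT, h2, sub_zero]
  have h3 := finrank_quot (k := k) (p ^ e) s w hw0
  rw [finrank_alg] at h3
  refine h3.trans (Nat.mul_le_mul_left _ ?_)
  -- the surjection
  set ψ : (n ⊕ Unit → MonoidAlgebra k G) →ₗ[k] MonoidAlgebra k G :=
    { toFun := fun v => v (Sum.inr ()) - ((S * P⁻¹) *ᵥ (v ∘ Sum.inl)) ()
      map_add' := by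
        intro v v'
        have : (v + v') ∘ (Sum.inl : n → n ⊕ Unit) = v ∘ Sum.inl + v' ∘ Sum.inl := rfl
        rw [this, Matrix.mulVec_add, Pi.add_apply, Pi.add_apply]
        ring
      map_smul' := by
        intro c v
        have : (c • v) ∘ (Sum.inl : n → n ⊕ Unit) = c • (v ∘ Sum.inl) := rfl
        rw [this, Matrix.mulVec_smul, Pi.smul_apply, Pi.smul_apply, RingHom.id_apply, smul_sub] } with hψ
  set φ : (n ⊕ Unit → MonoidAlgebra k G) →ₗ[k] (MonoidAlgebra k G ⧸ Ideal.span (Set.range w)) :=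
    ((Ideal.Quotient.mkₐ k (Ideal.span (Set.range w))).toLinearMap) ∘ₗ ψ with hφ
  have hker : LinearMap.range (kmap (fromBlocks P Q S T)) ≤ LinearMap.ker φ := by
    rintro _ ⟨z, rfl⟩
    rw [LinearMap.mem_ker, hφ, LinearMap.comp_apply]
    change Ideal.Quotient.mk (Ideal.span (Set.range w)) (ψ _) = 0
    rw [Ideal.Quotient.eq_zero_iff_mem]
    have e1 : ψ (kmap (fromBlocks P Q S T) z) = ∑ j, w j * z (Sum.inr j) := by
      rw [kmap_apply, Matrix.fromBlocks_mulVec]
      change (S *ᵥ (z ∘ Sum.inl) + T *ᵥ (z ∘ Sum.inr)) () -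
        ((S * P⁻¹) *ᵥ (P *ᵥ (z ∘ Sum.inl) + Q *ᵥ (z ∘ Sum.inr))) () = _
      rw [Matrix.mulVec_add, Matrix.mulVec_mulVec, Matrix.mulVec_mulVec, Matrix.mul_assoc S P⁻¹ P,
        Matrix.nonsing_inv_mul _ hP, Matrix.mul_one, Pi.add_apply, Pi.add_apply, add_sub_add_left_eq_sub]
      rw [Matrix.mulVec, Matrix.mulVec, dotProduct, dotProduct, ← Finset.sum_sub_distrib]
      refine Finset.sum_congr rfl (fun j _ => ?_)
      rw [← sub_mul]
      rfl
    rw [e1]
    exact Ideal.sum_mem _ (fun j _ => Ideal.mul_mem_right _ _ (Ideal.subset_span ⟨j, rfl⟩))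
  have hsurj : Function.Surjective ((LinearMap.range (kmap (fromBlocks P Q S T))).liftQ φ hker) := by
    intro y
    obtain ⟨x, rfl⟩ := Ideal.Quotient.mk_surjective y
    refine ⟨Submodule.Quotient.mk (Sum.elim (fun _ => 0) (fun _ => x)), ?_⟩
    rw [Submodule.liftQ_apply, hφ, LinearMap.comp_apply]
    change Ideal.Quotient.mk (Ideal.span (Set.range w)) (ψ _) = _
    congr 1
    change x - ((S * P⁻¹) *ᵥ (fun _ => (0 : MonoidAlgebra k G))) () = x
    have : (fun _ => (0 : MonoidAlgebra k G)) = (0 : n → MonoidAlgebra k G) := rfl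
    rw [this, Matrix.mulVec_zero, Pi.zero_apply, sub_zero]
  exact LinearMap.finrank_le_finrank_of_surjective hsurj

/-- The case of a matrix in block form with entries in the augmentation ideal. -/
lemma card_le_blocks [Infinite k] {n : Type} [Fintype n] [DecidableEq n] {s : ℕ} (e : ℕ)
    (hG : ∀ g : G, g ^ p ^ e = 1) (P : Matrix n n (MonoidAlgebra k G)) (Q : Matrix n (Fin s) (MonoidAlgebra k G))
    (S : Matrix Unit n (MonoidAlgebra k G)) (T : Matrix Unit (Fin s) (MonoidAlgebra k G))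
    (hP : ∀ i j, aug k G (P i j) = 0) (hS : ∀ i j, aug k G (S i j) = 0) (hT : ∀ i j, aug k G (T i j) = 0) :
    Nat.card G ≤ (p ^ e) ^ s *
      finrank k ((n ⊕ Unit → MonoidAlgebra k G) ⧸ LinearMap.range (kmap (fromBlocks P Q S T))) := by
  obtain ⟨c, hc, hle⟩ := exists_coker_le (kmap (fromBlocks P Q S T))
    (kmap (fromBlocks (1 : Matrix n n (MonoidAlgebra k G)) 0 (0 : Matrix Unit n (MonoidAlgebra k G))
      (0 : Matrix Unit (Fin s) (MonoidAlgebra k G))))
  have e1 : kmap (fromBlocks P Q S T) + c • kmap (fromBlocks (1 : Matrix n n (MonoidAlgebra k G)) 0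
      (0 : Matrix Unit n (MonoidAlgebra k G)) (0 : Matrix Unit (Fin s) (MonoidAlgebra k G))) =
      kmap (fromBlocks (P + c • (1 : Matrix n n (MonoidAlgebra k G))) Q S T) := by
    apply LinearMap.ext
    intro z
    rw [LinearMap.add_apply, LinearMap.smul_apply, kmap_apply, kmap_apply, kmap_apply, ← Matrix.smul_mulVec,
      ← Matrix.add_mulVec, Matrix.fromBlocks_smul, Matrix.fromBlocks_add, smul_zero, smul_zero, smul_zero,
      add_zero, add_zero, add_zero]
  rw [e1] at hle
  have hdet : IsUnit (P + c • (1 : Matrix n n (MonoidAlgebra k G))).det := by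
    apply isUnit_of_aug e hG
    rw [RingHom.map_det]
    have e2 : (aug k G).mapMatrix (P + c • (1 : Matrix n n (MonoidAlgebra k G))) = c • (1 : Matrix n n k) := by
      ext i j
      rw [RingHom.mapMatrix_apply, Matrix.map_apply, Matrix.add_apply, map_add, hP, zero_add, Matrix.smul_apply,
        Matrix.smul_apply, Algebra.smul_def, map_mul, aug_algebraMap, smul_eq_mul]
      congr 1
      rw [Matrix.one_apply, Matrix.one_apply]
      split_ifs
      · rw [map_one]
      · rw [map_zero]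
    rw [e2, Matrix.det_smul, Matrix.det_one, mul_one]
    exact pow_ne_zero _ hc
  exact (card_le_of_block (m := Unit) e hG _ Q S T hdet hS hT).trans (Nat.mul_le_mul_left _ hle)

/-- **Main lower bound.** A matrix with `b ≥ 1` rows and at most `b + r` columns over `k[G]`, with entries in the
augmentation ideal. -/
theorem card_le [Infinite k] {b r : ℕ} (e : ℕ) (hG : ∀ g : G, g ^ p ^ e = 1) (hb : 0 < b)
    (A : Matrix (Fin b) (Fin (b + r)) (MonoidAlgebra k G)) (hA : ∀ i j, aug k G (A i j) = 0) :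
    Nat.card G ≤ (p ^ e) ^ (r + 1) * finrank k ((Fin b → MonoidAlgebra k G) ⧸ LinearMap.range (kmap A)) := by
  obtain ⟨β, rfl⟩ : ∃ β, b = β + 1 := ⟨b - 1, by omega⟩
  -- the blocks
  let ρ : Fin β ⊕ Unit ≃ Fin (β + 1) := (Equiv.sumCongr (Equiv.refl _) (Equiv.equivPUnit (Fin 1)).symm).trans finSumFinEquiv
  let κ : Fin β ⊕ Fin (r + 1) ≃ Fin (β + 1 + r) := finSumFinEquiv.trans (finCongr (by omega))
  set B : Matrix (Fin β ⊕ Unit) (Fin β ⊕ Fin (r + 1)) (MonoidAlgebra k G) := A.submatrix ρ κ with hB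
  have h1 := card_le_blocks (k := k) (p := p) e hG B.toBlocks₁₁ B.toBlocks₁₂ B.toBlocks₂₁ B.toBlocks₂₂
    (fun i j => hA _ _) (fun i j => hA _ _) (fun i j => hA _ _)
  rw [Matrix.fromBlocks_toBlocks] at h1
  refine h1.trans (Nat.mul_le_mul_left _ (le_of_eq ?_))
  -- reindexing
  let E : (Fin (β + 1) → MonoidAlgebra k G) ≃ₗ[k] (Fin β ⊕ Unit → MonoidAlgebra k G) :=
    LinearEquiv.funCongrLeft k (MonoidAlgebra k G) ρ
  have hE : (LinearMap.range (kmap A)).map (E : (Fin (β + 1) → MonoidAlgebra k G) →ₗ[k] _) =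
      LinearMap.range (kmap B) := by
    apply le_antisymm
    · rintro _ ⟨_, ⟨z, rfl⟩, rfl⟩
      refine ⟨z ∘ κ, ?_⟩
      rw [kmap_apply, hB, Matrix.submatrix_mulVec_equiv]
      funext i
      have : (z ∘ κ) ∘ κ.symm = z := by
        funext j
        change z (κ (κ.symm j)) = z j
        rw [κ.apply_symm_apply]
      rw [this]
      rfl
    · rintro _ ⟨z, rfl⟩
      refine ⟨A *ᵥ (z ∘ κ.symm), ⟨z ∘ κ.symm, rfl⟩, ?_⟩
      rw [kmap_apply, hB, Matrix.submatrix_mulVec_equiv]
      rfl
  exact (LinearEquiv.finrank_eq (Submodule.Quotient.equiv _ _ E hE)).symm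

end

end Pool.Agent.Q173.MU
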