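import Pool.Agent.Q173.MU.Fields

/-!
# Iwasawa modules over cyclotomic `ℤ_p`-extensions, localised at the prime `(p)`
-/

set_option autoImplicit false

namespace Pool.Agent.Q173.MU

open Module IsLocalRing

/-- A local ring `O` and an `O`-module `X F` for every subfield `F` of `ℂ`. (The ring is the localisation of the Iwasawa
algebra `Λ = ℤ_p[[T]]` at the prime ideal `(p)`, and `X F = X(F_∞) ⊗_Λ O` for the unramified Iwasawa module
`X(F_∞) = lim Cl(F_n)[p^∞]`. For `L / F` with `L ∩ F_∞ = F` the algebras of `F` and `L` are identified.) -/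
structure IwData where
  /-- the ring -/
  O : Type
  [ring : CommRing O]
  [loc : IsLocalRing O]
  /-- the modules -/
  X : IntermediateField ℚ ℂ → Type
  [grp : ∀ F, AddCommGroup (X F)]
  [mod : ∀ F, Module O (X F)]

attribute [instance] IwData.ring IwData.loc IwData.grp IwData.mod

/-- The number of generators of `X F`: the number of the summands `Λ / (p ^ (m_i))` in the structure theorem. -/
noncomputable def IwData.m (D : IwData) (F : IntermediateField ℚ ℂ) : ℕ := rk D.O (D.X F)

/-- The length of `X F`: the `μ`-invariant `∑ m_i`. -/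
noncomputable def IwData.mu (D : IwData) (F : IntermediateField ℚ ℂ) : ℕ := (Module.length D.O (D.X F)).toNat

/-- The residue field of `O` (the field of Laurent series over `𝔽_p`) is infinite of characteristic `p`. -/
def IwData.IsLoc (D : IwData) (p : ℕ) : Prop :=
  Infinite (ResidueField D.O) ∧ CharP (ResidueField D.O) p

/-- Presentations over group rings: let `L / F` be a finite Galois `p`-extension with group `G` such that
`L ∩ F_∞ = F` (and `F` satisfies the condition `adm`). Then `X L` is an `O[G]`-module with `m F` generators and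
`m F + r` relations, `r` the number of the archimedean places of `F`, and its coinvariants are `X F`. (This is the
complex of `O[G]`-modules `RΓ_Iw(𝓞_{F,S}, ℤ_p[G](1)) ⊗_Λ O`: it is perfect, its cohomology is zero outside the degrees `1`
and `2`, also modulo the maximal ideal; its Euler characteristic is `-r`; its `H²` is `X L`, since for all finite primes
`v` the local terms are finitely generated over `ℤ_p`; and it is compatible with the change of `G`.) -/
def IwData.HasPres (D : IwData) (p : ℕ) (adm : IntermediateField ℚ ℂ → Prop) : Prop :=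
  ∀ (F L : IntermediateField ℚ ℂ) (h : F ≤ L), adm F → IsExt p h → IsPGroup p (GalGrp h) →
    IsPres D.O (GalGrp h) (D.X L) (D.X F) (D.m F) (D.m F + places F)

/-- The modules `X F` have finite length (Iwasawa: `X(F_∞)` is a finitely generated torsion module). -/
def IwData.IsTorsion (D : IwData) : Prop := ∀ F : IntermediateField ℚ ℂ, FiniteDimensional ℚ F →
  Module.Finite D.O (D.X F) ∧ Module.length D.O (D.X F) ≠ ⊤

/-- All layers of the cyclotomic `ℤ_p`-extension of `ℚ` exist. -/
def HasLayers (p : ℕ) : Prop := ∀ m, ∃ E, IsLayer p m ⊥ E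

lemma HasLayers.exists {p : ℕ} (h : HasLayers p) (m : ℕ) (F : IntermediateField ℚ ℂ) : ∃ K, IsLayer p m F K := by
  obtain ⟨_, E, h1, h2, h3, _⟩ := h m
  exact ⟨F ⊔ E, E, h1, h2, h3, rfl⟩

section

variable {p : ℕ} [hp : Fact p.Prime] {D : IwData} {adm : IntermediateField ℚ ℂ → Prop}

/-- `IsPres.card_le` for groups with commuting elements -/
lemma card_le_of_comm {O G X Y : Type} [CommRing O] [IsLocalRing O] [hG : Group G] [Finite G] [AddCommGroup X]
    [Module O X] [AddCommGroup Y] [Module O Y] [CharP (ResidueField O) p] [Infinite (ResidueField O)] {r e : ℕ}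
    (hc : ∀ a b : G, a * b = b * a) (hG' : ∀ g : G, g ^ p ^ e = 1)
    (h : IsPres O G X Y (rk O Y) (rk O Y + r)) (h0 : 0 < rk O Y) :
    Nat.card G ≤ p ^ (e * (r + 1)) * rk O X := by
  let _ : CommGroup G := { hG with mul_comm := hc }
  exact IsPres.card_le hG' h h0

lemma fin_of_isAb {e : ℕ} {F L : IntermediateField ℚ ℂ} (h : IsAb p e F L) : FiniteDimensional ℚ L := by
  obtain ⟨_, h, _⟩ := h
  exact h.1

lemma fin_left_of_isAb {e : ℕ} {F L : IntermediateField ℚ ℂ} (h : IsAb p e F L) : FiniteDimensional ℚ F := by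
  have h1 := fin_of_isAb h
  obtain ⟨h, _⟩ := h
  exact Module.Finite.of_injective (IntermediateField.inclusion h).toLinearMap
    (IntermediateField.inclusion_injective h)

/-- **Linear growth.** -/
theorem IwData.growth (hD : D.IsLoc p) (hP : D.HasPres p adm) {F L : IntermediateField ℚ ℂ} (hF : adm F) {e : ℕ}
    (hL : IsAb p e F L) (h0 : 0 < D.m F) : deg F L ≤ p ^ (e * (places F + 1)) * D.m L := by
  obtain ⟨h, hE, hc, he⟩ := hL
  have hfin := finite_gal hE
  have hI := hD.1
  have hC := hD.2
  rw [← card_gal hE]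
  exact card_le_of_comm hc he (hP F L h hF hE (fun g => ⟨e, he g⟩)) h0

/-- the upper bound -/
theorem IwData.upper (hP : D.HasPres p adm) {F L : IntermediateField ℚ ℂ} (hF : adm F) {e : ℕ}
    (hL : IsAb p e F L) : D.m L ≤ deg F L * D.m F := by
  obtain ⟨h, hE, hc, he⟩ := hL
  have hfin := finite_gal hE
  rw [← card_gal hE]
  exact (hP F L h hF hE (fun g => ⟨e, he g⟩)).rk_le

lemma IwData.m_le_mu (hT : D.IsTorsion) {F : IntermediateField ℚ ℂ} (hF : FiniteDimensional ℚ F) :
    D.m F ≤ D.mu F := by
  obtain ⟨h1, h2⟩ := hT F hF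
  have h3 : ((D.m F : ℕ) : ℕ∞) ≤ Module.length D.O (D.X F) := rk_le_length
  rw [← ENat.natCast_toNat h2] at h3
  exact_mod_cast h3

lemma IwData.mu_eq_zero_iff (hT : D.IsTorsion) {F : IntermediateField ℚ ℂ} (hF : FiniteDimensional ℚ F) :
    D.mu F = 0 ↔ D.m F = 0 := by
  obtain ⟨h1, h2⟩ := hT F hF
  have h3 : D.m F = 0 ↔ Module.length D.O (D.X F) = 0 := rk_eq_zero_iff
  rw [h3]
  unfold IwData.mu
  rw [ENat.toNat_eq_zero]
  constructor
  · rintro (h | h)
    · exact h
    · exact absurd h h2
  · exact Or.inl

end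

end Pool.Agent.Q173.MU
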