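import Pool.Agent.Q173.MU.Main

/-!
# Cyclotomic `ℤ_p`-towers of number fields
-/

set_option autoImplicit false

namespace Pool.Agent.Q173.MU

open Module IsLocalRing

/-- `K = F · ℚ_m`, where `ℚ_m` is the real field of degree `p ^ m` in the field of the `p ^ (m + 2)`-th roots of unity
(the `m`-th layer of the cyclotomic `ℤ_p`-extension of `ℚ`). -/
def IsLayer (p m : ℕ) (F K : IntermediateField ℚ ℂ) : Prop :=
  ∃ E : IntermediateField ℚ ℂ, E ≤ IntermediateField.adjoin ℚ {z : ℂ | z ^ (p ^ (m + 2)) = 1} ∧
    finrank ℚ E = p ^ m ∧ (∀ x ∈ E, starRingEnd ℂ x = x) ∧ K = F ⊔ E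

/-- The degree `[K : F]`. -/
noncomputable def deg (F K : IntermediateField ℚ ℂ) : ℕ := IntermediateField.relfinrank F K

/-- The Galois group of `L` over `F`. -/
abbrev GalGrp {F L : IntermediateField ℚ ℂ} (h : F ≤ L) : Type :=
  IntermediateField.extendScalars h ≃ₐ[F] IntermediateField.extendScalars h

/-- `L` is a finite Galois extension of `F` whose intersection with the cyclotomic `ℤ_p`-extension of `F` is `F`. -/
def IsExt (p : ℕ) {F L : IntermediateField ℚ ℂ} (h : F ≤ L) : Prop :=
  FiniteDimensional ℚ L ∧ IsGalois F (IntermediateField.extendScalars h) ∧ ∀ m K, IsLayer p m F K → L ⊓ K = F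

/-- `L` is a finite abelian extension of `F`, with a Galois group of exponent dividing `p ^ e`, and its intersection with
the cyclotomic `ℤ_p`-extension of `F` is `F`. -/
def IsAb (p e : ℕ) (F L : IntermediateField ℚ ℂ) : Prop :=
  ∃ h : F ≤ L, IsExt p h ∧ (∀ σ τ : GalGrp h, σ * τ = τ * σ) ∧ ∀ σ : GalGrp h, σ ^ p ^ e = 1

/-- The number `r₁ + r₂` of the archimedean places of `F`. -/
noncomputable def places (F : IntermediateField ℚ ℂ) : ℕ := Nat.card (NumberField.InfinitePlace F)

/-- The number of the complex places of `F` is the number of all its archimedean places. -/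
def IsTotImag (F : IntermediateField ℚ ℂ) : Prop := ∀ v : NumberField.InfinitePlace F, v.IsComplex

lemma fin_of_ext {p : ℕ} {F L : IntermediateField ℚ ℂ} {h : F ≤ L} (hL : IsExt p h) :
    FiniteDimensional F (IntermediateField.extendScalars h) := by
  have h1 : FiniteDimensional ℚ L := hL.1
  have h2 : FiniteDimensional ℚ (IntermediateField.extendScalars h) := h1
  exact Module.Finite.of_restrictScalars_finite ℚ F _

lemma card_gal {p : ℕ} {F L : IntermediateField ℚ ℂ} {h : F ≤ L} (hL : IsExt p h) :
    Nat.card (GalGrp h) = deg F L := by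
  have := fin_of_ext hL
  have := hL.2.1
  rw [IsGalois.card_aut_eq_finrank, deg, IntermediateField.relfinrank_eq_finrank_of_le h]

lemma finite_gal {p : ℕ} {F L : IntermediateField ℚ ℂ} {h : F ≤ L} (hL : IsExt p h) : Finite (GalGrp h) := by
  have := fin_of_ext hL
  infer_instance

lemma deg_mul {F L K : IntermediateField ℚ ℂ} (h1 : F ≤ L) (h2 : L ≤ K) : deg F L * deg L K = deg F K :=
  IntermediateField.relfinrank_mul_relfinrank h1 h2

lemma layer_le {p m : ℕ} {F K : IntermediateField ℚ ℂ} (h : IsLayer p m F K) : F ≤ K := by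
  obtain ⟨E, _, _, _, rfl⟩ := h
  exact le_sup_left

lemma layer_fin {p m : ℕ} (hp : p.Prime) {F K : IntermediateField ℚ ℂ} (hF : FiniteDimensional ℚ F)
    (h : IsLayer p m F K) : FiniteDimensional ℚ K := by
  obtain ⟨E, _, hE, _, rfl⟩ := h
  have hE' : FiniteDimensional ℚ E := FiniteDimensional.of_finrank_pos (by
    rw [hE]
    exact pow_pos hp.pos m)
  exact IntermediateField.finiteDimensional_sup F E

/-- the degree of the layers grows at least like `p ^ m / [F : ℚ]` -/
lemma layer_deg {p m : ℕ} (hp : p.Prime) {F K : IntermediateField ℚ ℂ} (hF : FiniteDimensional ℚ F)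
    (h : IsLayer p m F K) : p ^ m ≤ deg F K * finrank ℚ F := by
  have hK := layer_fin hp hF h
  have hle := layer_le h
  have h1 : finrank ℚ K = deg F K * finrank ℚ F := by
    have h2 := IntermediateField.relfinrank_mul_relfinrank (bot_le : (⊥ : IntermediateField ℚ ℂ) ≤ F) hle
    rw [IntermediateField.relfinrank_bot_left, IntermediateField.relfinrank_bot_left] at h2
    rw [← h2, mul_comm]
    rfl
  rw [← h1]
  obtain ⟨E, _, hE, _, rfl⟩ := h
  rw [← hE]
  have hle2 : E ≤ F ⊔ E := le_sup_right
  exact LinearMap.finrank_le_finrank_of_injective (f := (IntermediateField.inclusion hle2).toLinearMap)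
    (IntermediateField.inclusion_injective hle2)

/-- the trivial extension -/
lemma isAb_self (p e : ℕ) {F : IntermediateField ℚ ℂ} (hF : FiniteDimensional ℚ F) : IsAb p e F F := by
  have hbot : IntermediateField.extendScalars (le_refl F) = ⊥ := IntermediateField.extendScalars_self F
  have hsub : ∀ σ : GalGrp (le_refl F), σ = 1 := by
    intro σ
    apply AlgEquiv.ext
    intro x
    obtain ⟨x, hx⟩ := x
    have hx' : x ∈ F := hx
    have : (⟨x, hx⟩ : IntermediateField.extendScalars (le_refl F)) = algebraMap F _ ⟨x, hx'⟩ := rfl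
    rw [this, AlgEquiv.commutes]
    rfl
  refine ⟨le_refl F, ⟨hF, ?_, ?_⟩, fun σ τ => by rw [hsub σ, hsub τ], fun σ => by rw [hsub σ, one_pow]⟩
  · rw [hbot]
    infer_instance
  · intro m K hK
    exact inf_eq_left.2 (layer_le hK)

end Pool.Agent.Q173.MU
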