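import Pool.Agent.Q173.MU.Alg

/-!
# Group rings of finite `p`-groups in characteristic `p`
-/

set_option autoImplicit false

namespace Pool.Agent.Q173.MU

open Module Matrix

/-- The augmentation `∑ a_g g ↦ ∑ a_g` of the group ring. -/
noncomputable def aug (S G : Type*) [CommRing S] [Monoid G] : MonoidAlgebra S G →+* S :=
  (MonoidAlgebra.lift S S G 1).toRingHom

section

variable {S G : Type*} [CommRing S] [Monoid G]

lemma aug_single (g : G) (a : S) : aug S G (MonoidAlgebra.single g a) = a := by
  change (MonoidAlgebra.lift S S G 1) (MonoidAlgebra.single g a) = a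
  rw [MonoidAlgebra.lift_single]
  simp

lemma aug_algebraMap (a : S) : aug S G (algebraMap S _ a) = a := by
  change (MonoidAlgebra.lift S S G 1) (algebraMap S _ a) = a
  rw [AlgHom.commutes]
  rfl

lemma aug_surjective : Function.Surjective (aug S G) := fun a => ⟨algebraMap S _ a, aug_algebraMap a⟩

end

/-- The map `z ↦ A z` defined by a matrix over the group ring (which need not be commutative), as an `S`-linear map. -/
noncomputable def kmap {S G : Type*} [CommRing S] [Monoid G] {m n : Type*} [Fintype n]
    (A : Matrix m n (MonoidAlgebra S G)) : (n → MonoidAlgebra S G) →ₗ[S] (m → MonoidAlgebra S G) where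
  toFun z := A *ᵥ z
  map_add' z z' := Matrix.mulVec_add A z z'
  map_smul' c z := Matrix.mulVec_smul A c z

lemma kmap_apply {S G : Type*} [CommRing S] [Monoid G] {m n : Type*} [Fintype n]
    (A : Matrix m n (MonoidAlgebra S G)) (z : n → MonoidAlgebra S G) : kmap A z = A *ᵥ z := rfl

section

variable {k : Type*} [Field k] {G : Type*} [CommGroup G] {p : ℕ} [Fact p.Prime] [CharP k p]

lemma pow_eq (e : ℕ) (hG : ∀ g : G, g ^ p ^ e = 1) (x : MonoidAlgebra k G) :
    x ^ p ^ e = algebraMap k _ ((aug k G x) ^ p ^ e) := by
  have : CharP (MonoidAlgebra k G) p :=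
    charP_of_injective_algebraMap (FaithfulSMul.algebraMap_injective k (MonoidAlgebra k G)) p
  have h1 : iterateFrobenius (MonoidAlgebra k G) p e =
      (algebraMap k (MonoidAlgebra k G)).comp ((iterateFrobenius k p e).comp (aug k G)) := by
    apply MonoidAlgebra.ringHom_ext
    · intro a
      rw [RingHom.comp_apply, RingHom.comp_apply, aug_single, iterateFrobenius_def, iterateFrobenius_def,
        MonoidAlgebra.single_pow, one_pow]
      rfl
    · intro g
      rw [RingHom.comp_apply, RingHom.comp_apply, aug_single, iterateFrobenius_def, map_one, map_one,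
        MonoidAlgebra.single_pow, hG, one_pow]
      rfl
  have h2 := RingHom.congr_fun h1 x
  rw [RingHom.comp_apply, RingHom.comp_apply, iterateFrobenius_def, iterateFrobenius_def] at h2
  exact h2

lemma pow_eq_zero (e : ℕ) (hG : ∀ g : G, g ^ p ^ e = 1) (x : MonoidAlgebra k G) (hx : aug k G x = 0) :
    x ^ p ^ e = 0 := by
  rw [pow_eq e hG, hx, zero_pow (pow_pos (Fact.out (p := p.Prime)).pos e).ne', map_zero]

lemma isUnit_of_aug (e : ℕ) (hG : ∀ g : G, g ^ p ^ e = 1) (x : MonoidAlgebra k G) (hx : aug k G x ≠ 0) :
    IsUnit x := by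
  have h1 : IsUnit (x ^ p ^ e) := by
    rw [pow_eq e hG]
    exact (isUnit_iff_ne_zero.2 (pow_ne_zero _ hx)).map _
  exact (isUnit_pow_iff (pow_pos (Fact.out (p := p.Prime)).pos e).ne').1 h1

end

section

variable {k : Type*} [Field k] {G : Type*} [Monoid G] [Finite G]

instance finite_alg : Module.Finite k (MonoidAlgebra k G) :=
  Module.Finite.equiv (MonoidAlgebra.coeffLinearEquiv k).symm

lemma finrank_alg : finrank k (MonoidAlgebra k G) = Nat.card G := by
  have := Fintype.ofFinite G
  rw [LinearEquiv.finrank_eq (MonoidAlgebra.coeffLinearEquiv (S := k) k (M := G)), Module.finrank_finsupp_self,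
    Nat.card_eq_fintype_card]

end

end Pool.Agent.Q173.MU
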