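import Pool.Agent.Q173.MU.Pres

/-!
# Bounds for the number of generators of modules presented over group rings
-/

set_option autoImplicit false

namespace Pool.Agent.Q173.MU

open Module Matrix TensorProduct IsLocalRing

section

variable {O : Type} [CommRing O] [IsLocalRing O] {G : Type} [Group G] {X Y : Type} [AddCommGroup X] [Module O X]
  [AddCommGroup Y] [Module O Y]

instance finite_mon (O G : Type) [CommRing O] [Monoid G] [Finite G] : Module.Finite O (MonoidAlgebra O G) :=
  Module.Finite.equiv (MonoidAlgebra.coeffLinearEquiv O).symm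

lemma IsPres.finite_left [Finite G] {b c : ℕ} (h : IsPres O G X Y b c) : Module.Finite O X := by
  obtain ⟨A, ⟨e⟩, _⟩ := h
  exact Module.Finite.equiv e.symm

lemma IsPres.finite_right {b c : ℕ} (h : IsPres O G X Y b c) : Module.Finite O Y := by
  obtain ⟨A, _, ⟨e⟩⟩ := h
  exact Module.Finite.equiv e.symm

lemma map_red_mulVec {b c : ℕ} (A : Matrix (Fin b) (Fin c) (MonoidAlgebra O G)) (z : Fin c → MonoidAlgebra O G) :
    redVec O G b (kmap A z) = kmap (A.map (red O G)) (redVec O G c z) := by
  funext i
  exact RingHom.map_mulVec (red O G) A z i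

/-- The module `X` has at least as many generators as the reduction of the cokernel. -/
lemma coker_le_rk [Finite G] {b c : ℕ} (A : Matrix (Fin b) (Fin c) (MonoidAlgebra O G))
    (e : X ≃ₗ[O] ((Fin b → MonoidAlgebra O G) ⧸ LinearMap.range (kmap A))) :
    finrank (ResidueField O) ((Fin b → MonoidAlgebra (ResidueField O) G) ⧸
      LinearMap.range (kmap (A.map (red O G)))) ≤ rk O X := by
  have hfin : Module.Finite O X := Module.Finite.equiv e.symm
  set f₀ : (Fin b → MonoidAlgebra O G) →ₗ[O] ((Fin b → MonoidAlgebra (ResidueField O) G) ⧸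
      LinearMap.range (kmap (A.map (red O G)))) :=
    ((LinearMap.range (kmap (A.map (red O G)))).mkQ.restrictScalars O) ∘ₗ redVec O G b with hf₀
  have hk : LinearMap.range (kmap A) ≤ LinearMap.ker f₀ := by
    rintro _ ⟨z, rfl⟩
    rw [LinearMap.mem_ker, hf₀, LinearMap.comp_apply, map_red_mulVec]
    change (LinearMap.range (kmap (A.map (red O G)))).mkQ _ = 0
    rw [Submodule.mkQ_apply, Submodule.Quotient.mk_eq_zero]
    exact ⟨_, rfl⟩
  have hs : Function.Surjective (((LinearMap.range (kmap A)).liftQ f₀ hk) ∘ₗ (e : X →ₗ[O] _)) := by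
    intro y
    obtain ⟨y, rfl⟩ := Submodule.Quotient.mk_surjective _ y
    choose g hg using (red_surjective (O := O) (G := G))
    refine ⟨e.symm (Submodule.Quotient.mk (fun i => g (y i))), ?_⟩
    rw [LinearMap.comp_apply, LinearEquiv.coe_coe, LinearEquiv.apply_symm_apply, Submodule.liftQ_apply, hf₀,
      LinearMap.comp_apply]
    have h1 : redVec O G b (fun i => g (y i)) = y := by
      funext i
      exact hg (y i)
    rw [h1]
    rfl
  exact le_rk_of_surjective _ hs

/-- If the presentation of `Y` is minimal then the entries of `A` are in the augmentation ideal modulo `𝔪`. -/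
lemma aug_eq_zero {b c : ℕ} (A : Matrix (Fin b) (Fin c) (MonoidAlgebra O G))
    (e : Y ≃ₗ[O] ((Fin b → O) ⧸ LinearMap.range ((A.map (aug O G)).mulVecLin))) (hb : rk O Y = b) (i : Fin b)
    (j : Fin c) : aug (ResidueField O) G ((A.map (red O G)) i j) = 0 := by
  rw [Matrix.map_apply, aug_red]
  set g : (Fin b → O) →ₗ[O] Y := (e.symm : _ →ₗ[O] Y) ∘ₗ (LinearMap.range ((A.map (aug O G)).mulVecLin)).mkQ with hg
  have hgs : Function.Surjective g := by
    rw [hg, LinearMap.coe_comp]
    exact e.symm.surjective.comp (Submodule.mkQ_surjective _)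
  have h1 : Function.Surjective (g.baseChange (ResidueField O)) := LinearMap.lTensor_surjective _ hgs
  have hYfin : Module.Finite O Y := Module.Finite.equiv e.symm
  have h2 : finrank (ResidueField O) (ResidueField O ⊗[O] (Fin b → O)) =
      finrank (ResidueField O) (ResidueField O ⊗[O] Y) := by
    have h3 : rk O (Fin b → O) = b := rk_pi b
    unfold rk at h3 hb
    rw [h3, hb]
  have h3 := (LinearMap.injective_iff_surjective_of_finrank_eq_finrank h2).2 h1
  -- the column
  set v : Fin b → O := (A.map (aug O G)) *ᵥ (Pi.single j 1) with hv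
  have h4 : g v = 0 := by
    rw [hg, LinearMap.comp_apply]
    have : (LinearMap.range ((A.map (aug O G)).mulVecLin)).mkQ v = 0 := by
      rw [Submodule.mkQ_apply, Submodule.Quotient.mk_eq_zero]
      exact ⟨Pi.single j 1, rfl⟩
    rw [this, map_zero]
  have h5 : (g.baseChange (ResidueField O)) (1 ⊗ₜ[O] v) = 0 := by
    rw [LinearMap.baseChange_tmul, h4, TensorProduct.tmul_zero]
  have h6 : (1 : ResidueField O) ⊗ₜ[O] v = 0 := h3 (by rw [h5, map_zero])
  have h7 := congrArg (TensorProduct.piScalarRight O (ResidueField O) (ResidueField O) (Fin b)) h6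
  rw [TensorProduct.piScalarRight_apply, map_zero, TensorProduct.piScalarRightHom_tmul] at h7
  have h8 := congrFun h7 i
  have h9 : v i = aug O G (A i j) := by
    rw [hv, Matrix.mulVec_single_one]
    rfl
  have h10 : v i • (1 : ResidueField O) = 0 := h8
  rw [h9, Algebra.smul_def, mul_one] at h10
  exact h10

/-- **Upper bound.** -/
theorem IsPres.rk_le [Finite G] {b c : ℕ} (h : IsPres O G X Y b c) : rk O X ≤ Nat.card G * b := by
  obtain ⟨A, ⟨e⟩, _⟩ := h
  have hs : Function.Surjective ((e.symm : _ →ₗ[O] X) ∘ₗ (LinearMap.range (kmap A)).mkQ) := by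
    rw [LinearMap.coe_comp]
    exact e.symm.surjective.comp (Submodule.mkQ_surjective _)
  refine (rk_le_of_surjective _ hs).trans (le_of_eq ?_)
  unfold rk
  have := Fintype.ofFinite G
  have e1 : MonoidAlgebra O G ≃ₗ[O] (G → O) :=
    (MonoidAlgebra.coeffLinearEquiv O).trans (Finsupp.linearEquivFunOnFinite O O G)
  have hfree : Module.Free O (MonoidAlgebra O G) := Module.Free.of_equiv e1.symm
  rw [Module.finrank_baseChange, Module.finrank_pi_fintype, Finset.sum_const, Finset.card_univ, Fintype.card_fin,
    LinearEquiv.finrank_eq e1, Module.finrank_pi, Nat.card_eq_fintype_card, smul_eq_mul, mul_comm]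

/-- **Lower bound, square presentations, arbitrary `p`-groups.** -/
theorem IsPres.mul_card_le [Finite G] {l : ℕ} (hl : augSub (ResidueField O) G ^ l = ⊥)
    (h : IsPres O G X Y (rk O Y) (rk O Y)) : rk O Y * Nat.card G ≤ l * rk O X := by
  obtain ⟨A, ⟨e⟩, ⟨e'⟩⟩ := h
  exact (card_le_sq hl (A.map (red O G)) (aug_eq_zero A e' rfl)).trans
    (Nat.mul_le_mul_left _ (coker_le_rk A e))

end

section

variable {O : Type} [CommRing O] [IsLocalRing O] {G : Type} [CommGroup G] {X Y : Type} [AddCommGroup X] [Module O X]
  [AddCommGroup Y] [Module O Y] {p : ℕ} [Fact p.Prime] [CharP (ResidueField O) p] [Infinite (ResidueField O)]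

/-- **Lower bound, abelian groups of exponent dividing `p ^ e`.** -/
theorem IsPres.card_le [Finite G] {r e : ℕ} (hG : ∀ g : G, g ^ p ^ e = 1)
    (h : IsPres O G X Y (rk O Y) (rk O Y + r)) (h0 : 0 < rk O Y) :
    Nat.card G ≤ p ^ (e * (r + 1)) * rk O X := by
  obtain ⟨A, ⟨i⟩, ⟨i'⟩⟩ := h
  rw [pow_mul]
  exact (MU.card_le e hG h0 (A.map (red O G)) (aug_eq_zero A i' rfl)).trans
    (Nat.mul_le_mul_left _ (coker_le_rk A i))

end

section length

variable {O : Type} [CommRing O] [IsLocalRing O] {X : Type} [AddCommGroup X] [Module O X]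

lemma rk_le_length [Module.Finite O X] : (rk O X : ℕ∞) ≤ Module.length O X := by
  set n := rk O X with hn
  have hs1 : Function.Surjective (TensorProduct.mk O (ResidueField O) X 1) := by
    intro t
    induction t with
    | zero => exact ⟨0, map_zero _⟩
    | tmul a x =>
      obtain ⟨a, rfl⟩ := residue_surjective a
      refine ⟨a • x, ?_⟩
      rw [map_smul, TensorProduct.mk_apply, TensorProduct.smul_tmul']
      congr 1
      rw [Algebra.smul_def, mul_one]
      rfl
    | add s t hs ht =>
      obtain ⟨x, rfl⟩ := hs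
      obtain ⟨y, rfl⟩ := ht
      exact ⟨x + y, map_add _ _ _⟩
  have e1 : (ResidueField O ⊗[O] X) ≃ₗ[ResidueField O] (Fin n → ResidueField O) :=
    (Module.finBasis (ResidueField O) (ResidueField O ⊗[O] X)).equivFun
  have h1 : Module.length O (Fin n → ResidueField O) ≤ Module.length O X :=
    Module.length_le_of_surjective (((e1.restrictScalars O) : _ →ₗ[O] _) ∘ₗ (TensorProduct.mk O (ResidueField O) X 1))
      (by
        rw [LinearMap.coe_comp]
        exact e1.surjective.comp hs1)
  have hsimple : IsSimpleModule O (ResidueField O) := by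
    have : IsSimpleModule O (O ⧸ maximalIdeal O) :=
      isSimpleModule_iff_isCoatom.2 (Ideal.isMaximal_def.1 inferInstance)
    exact this
  have h2 : Module.length O (Fin n → ResidueField O) = n := by
    rw [Module.length_pi, Module.length_eq_one]
    simp
  rw [h2] at h1
  exact h1

lemma rk_eq_zero_iff [Module.Finite O X] : rk O X = 0 ↔ Module.length O X = 0 := by
  constructor
  · intro h
    rw [Module.length_eq_zero_iff]
    unfold rk at h
    have h1 : Subsingleton (ResidueField O ⊗[O] X) := Module.finrank_zero_iff.1 h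
    exact (IsLocalRing.subsingleton_tensorProduct (R := O) (M := X)).1 h1
  · intro h
    have h1 := rk_le_length (O := O) (X := X)
    rw [h] at h1
    exact_mod_cast nonpos_iff_eq_zero.1 h1

end length

end Pool.Agent.Q173.MU
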