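import Pool.Agent.Q173.MU.Grp

/-!
# Square matrices over group rings of arbitrary finite `p`-groups
-/

set_option autoImplicit false

namespace Pool.Agent.Q173.MU

open Module Matrix

/-- The augmentation ideal of `k[G]`, as a subspace. -/
noncomputable def augSub (k G : Type*) [Field k] [Monoid G] : Submodule k (MonoidAlgebra k G) where
  carrier := {x | aug k G x = 0}
  add_mem' := by
    intro x y hx hy
    change aug k G (x + y) = 0
    rw [map_add, hx, hy, add_zero]
  zero_mem' := map_zero _
  smul_mem' := by
    intro c x hx
    change aug k G (c • x) = 0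
    rw [Algebra.smul_def, map_mul, hx, mul_zero]

lemma mem_augSub {k G : Type*} [Field k] [Monoid G] (x : MonoidAlgebra k G) :
    x ∈ augSub k G ↔ aug k G x = 0 := Iff.rfl

section

variable {k : Type*} [Field k] {G : Type*} [Monoid G] [Finite G]

lemma pow_entries {b : ℕ} (A : Matrix (Fin b) (Fin b) (MonoidAlgebra k G)) (hA : ∀ i j, A i j ∈ augSub k G) (l : ℕ) :
    ∀ i j, (A ^ l) i j ∈ augSub k G ^ l := by
  induction l with
  | zero =>
    intro i j
    rw [pow_zero, pow_zero, Matrix.one_apply]
    split_ifs
    · exact Submodule.one_le.1 le_rfl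
    · exact Submodule.zero_mem _
  | succ l ih =>
    intro i j
    rw [pow_succ, pow_succ, Matrix.mul_apply]
    exact Submodule.sum_mem _ (fun x _ => Submodule.mul_mem_mul (ih i x) (hA x j))

lemma kmap_pow {b : ℕ} (A : Matrix (Fin b) (Fin b) (MonoidAlgebra k G)) (l : ℕ) :
    (kmap A) ^ l = kmap (A ^ l) := by
  induction l with
  | zero =>
    apply LinearMap.ext
    intro z
    rw [pow_zero, pow_zero, kmap_apply, Matrix.one_mulVec]
    rfl
  | succ l ih =>
    apply LinearMap.ext
    intro z
    rw [pow_succ, pow_succ, Module.End.mul_apply, ih, kmap_apply, kmap_apply, kmap_apply, Matrix.mulVec_mulVec]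

/-- **Square matrices, arbitrary groups.** If the `l`-th power of the augmentation ideal is zero, then the cokernel of a
square matrix of size `b` with entries in the augmentation ideal has dimension at least `b |G| / l`. -/
theorem card_le_sq {b l : ℕ} (hl : augSub k G ^ l = ⊥) (A : Matrix (Fin b) (Fin b) (MonoidAlgebra k G))
    (hA : ∀ i j, aug k G (A i j) = 0) :
    b * Nat.card G ≤ l * finrank k ((Fin b → MonoidAlgebra k G) ⧸ LinearMap.range (kmap A)) := by
  have h1 : (kmap A) ^ l = 0 := by
    rw [kmap_pow]
    have h2 : A ^ l = 0 := by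
      ext1 i j
      have h3 := pow_entries A hA l i j
      rw [hl] at h3
      exact h3
    rw [h2]
    apply LinearMap.ext
    intro z
    rw [kmap_apply, Matrix.zero_mulVec]
    rfl
  have h2 := finrank_le_of_pow (kmap A) l h1
  rw [Module.finrank_pi_fintype, Finset.sum_const, Finset.card_univ, Fintype.card_fin, finrank_alg,
    smul_eq_mul] at h2
  exact h2

end

end Pool.Agent.Q173.MU
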