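import Pool.Agent.Q173.MU.Core
import Pool.Agent.Q173.MU.Sq

/-!
# Modules presented by matrices over group rings of finite `p`-groups with coefficients in a local ring
-/

set_option autoImplicit false

namespace Pool.Agent.Q173.MU

open Module Matrix TensorProduct IsLocalRing

/-- The minimal number of generators of the module `X` over the local ring `O`: the dimension of `X / 𝔪 X` over the
residue field. -/
noncomputable def rk (O X : Type*) [CommRing O] [IsLocalRing O] [AddCommGroup X] [Module O X] : ℕ :=
  finrank (ResidueField O) (ResidueField O ⊗[O] X)

/-- There is a matrix `A` with `b` rows and `c` columns over the group ring `O[G]` such that `X` is isomorphic to the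
cokernel of `A` (as an `O`-module) and `Y` is isomorphic to the cokernel of the matrix over `O` obtained from `A` by the
augmentation. (So, if `X` is an `O[G]`-module with `b` generators and `c` relations and `Y` the module of its coinvariants
under `G`, then this is true.) -/
def IsPres (O G X Y : Type) [CommRing O] [Group G] [AddCommGroup X] [Module O X] [AddCommGroup Y] [Module O Y]
    (b c : ℕ) : Prop :=
  ∃ A : Matrix (Fin b) (Fin c) (MonoidAlgebra O G),
    Nonempty (X ≃ₗ[O] ((Fin b → MonoidAlgebra O G) ⧸ LinearMap.range (kmap A))) ∧
    Nonempty (Y ≃ₗ[O] ((Fin b → O) ⧸ LinearMap.range ((A.map (aug O G)).mulVecLin)))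

section

variable {O : Type} [CommRing O] [IsLocalRing O] {G : Type} [Group G]

/-- Reduction of the coefficients. -/
noncomputable def red (O G : Type) [CommRing O] [IsLocalRing O] [Group G] :
    MonoidAlgebra O G →+* MonoidAlgebra (ResidueField O) G :=
  MonoidAlgebra.mapRingHom G (residue O)

lemma red_surjective : Function.Surjective (red O G) := by
  intro x
  induction x using MonoidAlgebra.induction with
  | zero => exact ⟨0, map_zero _⟩
  | single_add g a x _ _ ih =>
    obtain ⟨y, rfl⟩ := ih
    obtain ⟨a, rfl⟩ := residue_surjective a
    refine ⟨MonoidAlgebra.single g a + y, ?_⟩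
    rw [map_add]
    congr 1
    change MonoidAlgebra.mapRingHom G (residue O) (MonoidAlgebra.single g a) = _
    simp

lemma aug_red (x : MonoidAlgebra O G) : aug (ResidueField O) G (red O G x) = residue O (aug O G x) := by
  have h : (aug (ResidueField O) G).comp (red O G) = (residue O).comp (aug O G) := by
    apply MonoidAlgebra.ringHom_ext
    · intro a
      rw [RingHom.comp_apply, RingHom.comp_apply, aug_single]
      change aug _ G (MonoidAlgebra.mapRingHom G (residue O) (MonoidAlgebra.single 1 a)) = _
      rw [MonoidAlgebra.mapRingHom_single, aug_single]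
    · intro g
      rw [RingHom.comp_apply, RingHom.comp_apply, aug_single]
      change aug _ G (MonoidAlgebra.mapRingHom G (residue O) (MonoidAlgebra.single g 1)) = _
      rw [MonoidAlgebra.mapRingHom_single, aug_single]
  exact RingHom.congr_fun h x

lemma red_smul (c : O) (x : MonoidAlgebra O G) : red O G (c • x) = c • red O G x := by
  rw [Algebra.smul_def, map_mul]
  have h1 : red O G (algebraMap O _ c) = algebraMap (ResidueField O) _ (residue O c) := by
    change MonoidAlgebra.mapRingHom G (residue O) (algebraMap O (MonoidAlgebra O G) c) = _
    rw [MonoidAlgebra.coe_algebraMap, MonoidAlgebra.coe_algebraMap]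
    simp
  rw [h1, ← Algebra.smul_def]
  rfl

/-- reduction of vectors -/
noncomputable def redVec (O G : Type) [CommRing O] [IsLocalRing O] [Group G] (b : ℕ) :
    (Fin b → MonoidAlgebra O G) →ₗ[O] (Fin b → MonoidAlgebra (ResidueField O) G) where
  toFun z i := red O G (z i)
  map_add' z z' := by
    funext i
    exact map_add _ _ _
  map_smul' c z := by
    funext i
    exact red_smul c (z i)

variable {X Y : Type} [AddCommGroup X] [Module O X] [AddCommGroup Y] [Module O Y]

lemma le_rk_of_surjective {V : Type*} [AddCommGroup V] [Module O V] [Module (ResidueField O) V]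
    [IsScalarTower O (ResidueField O) V] [Module.Finite O X] (f : X →ₗ[O] V) (hf : Function.Surjective f) :
    finrank (ResidueField O) V ≤ rk O X := by
  have h : Function.Surjective (f.liftBaseChange (ResidueField O)) := by
    intro v
    obtain ⟨x, rfl⟩ := hf v
    exact ⟨1 ⊗ₜ[O] x, by simp⟩
  exact LinearMap.finrank_le_finrank_of_surjective h

lemma rk_le_of_surjective [Module.Finite O X] (f : X →ₗ[O] Y) (hf : Function.Surjective f) : rk O Y ≤ rk O X := by
  have h : Function.Surjective (f.baseChange (ResidueField O)) := LinearMap.lTensor_surjective _ hf
  exact LinearMap.finrank_le_finrank_of_surjective h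

lemma rk_pi (n : ℕ) : rk O (Fin n → O) = n := by
  unfold rk
  rw [Module.finrank_baseChange, Module.finrank_pi, Fintype.card_fin]

end

end Pool.Agent.Q173.MU
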